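import Pool.Agent.Helper13.Sof.Goals

/-!
# Packet GAP of MP_1f9cc6_al: spectral gap with an error term
-/

set_option autoImplicit false
set_option linter.unusedSectionVars false

namespace Pool.Agent.Helper50.Sof

open Finset Pool.Agent.Helper13.Sof

noncomputable section

section scalar

variable {A : Type} [Fintype A] (p : ℕ) [hp : Fact p.Prime] (x : Equiv.Perm A) (hx : x ^ p = 1)

/-- average over the powers -/
def Mop (f : A → ℝ) (s : A) : ℝ := (∑ a ∈ range p, f ((x ^ a) s)) / (p : ℝ)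

lemma Qop_eq (f : A → ℝ) (s : A) : Qop p x f s = f s - Mop p x f s := rfl

include hx in
lemma Mop_inv (f : A → ℝ) (s : A) : Mop p x f (x s) = Mop p x f s := by
  unfold Mop
  congr 1
  have h1 : ∀ a, f ((x ^ a) (x s)) = f ((x ^ (a + 1)) s) := fun a => by rw [pow_succ]; rfl
  simp only [h1]
  have h2 := Finset.sum_range_succ' (fun a => f ((x ^ a) s)) p
  have h3 := Finset.sum_range_succ (fun a => f ((x ^ a) s)) p
  rw [h2] at h3
  rw [hx] at h3
  have h4 : f ((x ^ 0) s) = f ((1 : Equiv.Perm A) s) := by rw [pow_zero]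
  rw [h4] at h3
  exact add_right_cancel h3

include hx in
lemma Mop_inv_pow (f : A → ℝ) (a : ℕ) (s : A) : Mop p x f ((x ^ a) s) = Mop p x f s := by
  induction a with
  | zero => rw [pow_zero]; rfl
  | succ a ih =>
    have : (x ^ (a + 1)) s = x ((x ^ a) s) := by rw [pow_succ']; rfl
    rw [this, Mop_inv p x hx, ih]

include hx in
lemma Mop_sq (f : A → ℝ) : ∑ s, Mop p x f s * Mop p x f s = ∑ s, f s * Mop p x f s := by
  have hp0 : (p : ℝ) ≠ 0 := by exact_mod_cast hp.out.ne_zero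
  have h1 : ∀ s, Mop p x f s * Mop p x f s =
      (∑ a ∈ range p, f ((x ^ a) s) * Mop p x f ((x ^ a) s)) / (p : ℝ) := by
    intro s
    have h2 : ∑ a ∈ range p, f ((x ^ a) s) * Mop p x f ((x ^ a) s) =
        (∑ a ∈ range p, f ((x ^ a) s)) * Mop p x f s := by
      rw [Finset.sum_mul]
      exact Finset.sum_congr rfl fun a _ => by rw [Mop_inv_pow p x hx]
    rw [h2, ← div_mul_eq_mul_div]
    rfl
  simp only [h1]
  rw [← Finset.sum_div, Finset.sum_comm]
  have h3 : ∀ a ∈ range p, ∑ s, f ((x ^ a) s) * Mop p x f ((x ^ a) s) =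
      ∑ s, f s * Mop p x f s := fun a _ =>
    Equiv.sum_comp (x ^ a) (fun s => f s * Mop p x f s)
  rw [Finset.sum_congr rfl h3, Finset.sum_const, Finset.card_range, nsmul_eq_mul,
    mul_div_cancel_left₀ _ hp0]

include hx in
lemma Qop_sq (f : A → ℝ) : ∑ s, f s * Qop p x f s = ∑ s, Qop p x f s ^ 2 := by
  have h1 := Mop_sq p x hx f
  have h2 : ∑ s, (Qop p x f s ^ 2 - f s * Qop p x f s) = 0 := by
    have h3 : ∀ s, Qop p x f s ^ 2 - f s * Qop p x f s =
        Mop p x f s * Mop p x f s - f s * Mop p x f s := fun s => by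
      rw [Qop_eq]; ring
    simp only [h3]
    rw [Finset.sum_sub_distrib, h1, sub_self]
  rw [Finset.sum_sub_distrib] at h2
  linarith

end scalar

section vec

variable {A I : Type} [Fintype A] [Fintype I] (p : ℕ) [hp : Fact p.Prime]

/-- inner product -/
def ip (f g : A → I → ℝ) : ℝ := ∑ s, ∑ i, f s i * g s i

lemma nsq_eq_ip (f : A → I → ℝ) : nsq f = ip f f := by
  unfold nsq ip
  exact Finset.sum_congr rfl fun s _ => Finset.sum_congr rfl fun i _ => by ring

lemma ip_Qv (x : Equiv.Perm A) (hx : x ^ p = 1) (f : A → I → ℝ) :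
    ip f (Qv p x f) = nsq (Qv p x f) := by
  unfold ip nsq
  rw [Finset.sum_comm]
  rw [Finset.sum_comm (f := fun s i => Qv p x f s i ^ 2)]
  exact Finset.sum_congr rfl fun i _ => Qop_sq p x hx (fun t => f t i)

lemma sub_M {f : A → I → ℝ} (hf : IsSub f) (x : Equiv.Perm A) :
    (∀ s i, 0 ≤ Mop p x (fun t => f t i) s) ∧ ∀ s, ∑ i, Mop p x (fun t => f t i) s ≤ 1 := by
  have hp0 : (0 : ℝ) < p := by exact_mod_cast hp.out.pos
  refine ⟨fun s i => ?_, fun s => ?_⟩
  · unfold Mop
    exact div_nonneg (Finset.sum_nonneg fun a _ => hf.1 _ _) hp0.le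
  · unfold Mop
    rw [← Finset.sum_div, Finset.sum_comm, div_le_one hp0]
    calc ∑ a ∈ range p, ∑ i, f ((x ^ a) s) i ≤ ∑ a ∈ range p, (1 : ℝ) :=
          Finset.sum_le_sum fun a _ => hf.2 _
      _ = p := by simp

/-- pointwise bounds -/
lemma Qv_bd {f : A → I → ℝ} (hf : IsSub f) (x : Equiv.Perm A) (s : A) :
    ∑ i, Qv p x f s i ^ 2 ≤ 2 ∧ |∑ i, f s i * Qv p x f s i| ≤ 1 := by
  obtain ⟨hM0, hM1⟩ := sub_M p hf x
  have hQ : ∀ i, Qv p x f s i = f s i - Mop p x (fun t => f t i) s := fun i => rfl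
  have hf1 : ∀ i, f s i ≤ 1 := fun i =>
    (Finset.single_le_sum (fun i _ => hf.1 s i) (Finset.mem_univ i)).trans (hf.2 s)
  have hM1' : ∀ i, Mop p x (fun t => f t i) s ≤ 1 := fun i =>
    (Finset.single_le_sum (fun i _ => hM0 s i) (Finset.mem_univ i)).trans (hM1 s)
  constructor
  · have h1 : ∀ i ∈ Finset.univ, Qv p x f s i ^ 2 ≤ f s i + Mop p x (fun t => f t i) s := by
      intro i _
      rw [hQ]
      have a0 := hf.1 s i
      have a1 := hf1 i
      have b0 := hM0 s i
      have b1 := hM1' i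
      nlinarith [mul_nonneg a0 b0, mul_nonneg a0 (sub_nonneg.2 a1), mul_nonneg b0 (sub_nonneg.2 b1)]
    refine (Finset.sum_le_sum h1).trans ?_
    rw [Finset.sum_add_distrib]
    linarith [hf.2 s, hM1 s]
  · refine (Finset.abs_sum_le_sum_abs _ _).trans ?_
    refine (Finset.sum_le_sum (g := fun i => f s i) fun i _ => ?_).trans (hf.2 s)
    rw [abs_mul, abs_of_nonneg (hf.1 s i)]
    refine mul_le_of_le_one_right (hf.1 s i) ?_
    rw [hQ, abs_le]
    constructor
    · linarith [hf.1 s i, hM1' i]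
    · linarith [hM0 s i, hf1 i]

end vec

theorem gapIneq (h : HeisIneq) : GapIneq := by
  classical
  intro n p hp hnp A _ S I _ f hf
  have hp0 : (0 : ℝ) < p := by exact_mod_cast hp.out.pos
  have hp1 : (1 : ℝ) < p := by exact_mod_cast hp.out.one_lt
  set ε : ℝ := 1 / √(p : ℝ) with hε
  have hs1 : 1 < √(p : ℝ) := by
    rw [show (1 : ℝ) = √1 by simp]
    exact Real.sqrt_lt_sqrt (by norm_num) hp1
  have hε0 : 0 < ε := by positivity
  have hε1 : ε < 1 := by
    rw [hε, div_lt_one (by linarith)]; exact hs1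
  have hεn : (n : ℝ) * ε ≤ 1 / 2 := by
    have h1 : (2 * (n : ℝ)) ≤ √(p : ℝ) := by
      apply Real.le_sqrt_of_sq_le
      have : ((4 * n ^ 2 : ℕ) : ℝ) ≤ p := by exact_mod_cast hnp
      push_cast at this
      nlinarith
    rw [hε, mul_one_div, div_le_div_iff₀ (by linarith) (by norm_num)]
    linarith
  have hbad : (0 : ℝ) ≤ S.bad.card := Nat.cast_nonneg _
  -- the pair inequality
  have hpair : ∀ i j : Fin n, i ≠ j →
      (1 - ε) * (nsq (Qv p (S.ξ i) f) + nsq (Qv p (S.ξ j) f)) - 12 * (S.bad.card : ℝ) ≤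
        nsq (fun s c => Qv p (S.ξ i) f s c + Qv p (S.ξ j) f s c) := by
    intro i j hij
    set x := S.η i j with hx
    set y := S.η j i with hy
    have hxp : x ^ p = 1 := S.η_pow i j hij
    have hyp : y ^ p = 1 := S.η_pow j i hij.symm
    have hc1 : Commute (x * y * x⁻¹ * y⁻¹) x := S.comm i j hij
    have hc2 : Commute (x * y * x⁻¹ * y⁻¹) y := by
      have h2 : Commute (y * x * y⁻¹ * x⁻¹) y := S.comm j i hij.symm
      have h3 : x * y * x⁻¹ * y⁻¹ = (y * x * y⁻¹ * x⁻¹)⁻¹ := by group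
      rw [h3]
      exact h2.inv_left
    -- Heisenberg inequality, summed over the coordinates
    have hH : (1 - ε) * (∑ s, ∑ c, f s c * (Qv p x f s c + Qv p y f s c)) ≤
        ∑ s, ∑ c, (Qv p x f s c + Qv p y f s c) ^ 2 := by
      rw [Finset.sum_comm, Finset.sum_comm (f := fun s c => (Qv p x f s c + Qv p y f s c) ^ 2),
        Finset.mul_sum]
      exact Finset.sum_le_sum fun c _ => h A p x y hxp hyp hc1 hc2 (fun t => f t c)
    have hag : ∀ s, s ∉ S.bad → ∀ c, Qv p (S.ξ i) f s c = Qv p x f s c ∧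
        Qv p (S.ξ j) f s c = Qv p y f s c := by
      intro s hs c
      constructor
      · show f s c - (∑ a ∈ range p, f ((S.ξ i ^ a) s) c) / (p : ℝ) =
          f s c - (∑ a ∈ range p, f ((x ^ a) s) c) / (p : ℝ)
        simp only [S.agree s hs i j hij, hx]
      · show f s c - (∑ a ∈ range p, f ((S.ξ j ^ a) s) c) / (p : ℝ) =
          f s c - (∑ a ∈ range p, f ((y ^ a) s) c) / (p : ℝ)
        simp only [S.agree s hs j i hij.symm, hy]
    -- pointwise comparison of the squares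
    have h1 : ∑ s, ∑ c, (Qv p x f s c + Qv p y f s c) ^ 2 ≤
        nsq (fun s c => Qv p (S.ξ i) f s c + Qv p (S.ξ j) f s c) + 8 * (S.bad.card : ℝ) := by
      have h2 : ∀ s ∈ Finset.univ, ∑ c, (Qv p x f s c + Qv p y f s c) ^ 2 ≤
          ∑ c, (Qv p (S.ξ i) f s c + Qv p (S.ξ j) f s c) ^ 2 + (if s ∈ S.bad then 8 else 0) := by
        intro s _
        by_cases hs : s ∈ S.bad
        · rw [if_pos hs]
          have h3 : ∑ c, (Qv p x f s c + Qv p y f s c) ^ 2 ≤ 8 := by
            have h4 : ∀ c ∈ Finset.univ, (Qv p x f s c + Qv p y f s c) ^ 2 ≤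
                2 * Qv p x f s c ^ 2 + 2 * Qv p y f s c ^ 2 := fun c _ => by
              nlinarith [sq_nonneg (Qv p x f s c - Qv p y f s c)]
            refine (Finset.sum_le_sum h4).trans ?_
            rw [Finset.sum_add_distrib, ← Finset.mul_sum, ← Finset.mul_sum]
            linarith [(Qv_bd p hf x s).1, (Qv_bd p hf y s).1]
          have h5 : 0 ≤ ∑ c, (Qv p (S.ξ i) f s c + Qv p (S.ξ j) f s c) ^ 2 :=
            Finset.sum_nonneg fun c _ => sq_nonneg _
          linarith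
        · rw [if_neg hs, add_zero]
          refine le_of_eq (Finset.sum_congr rfl fun c _ => ?_)
          rw [(hag s hs c).1, (hag s hs c).2]
      refine (Finset.sum_le_sum h2).trans ?_
      rw [Finset.sum_add_distrib]
      have h6 : ∑ s, (if s ∈ S.bad then (8 : ℝ) else 0) = 8 * (S.bad.card : ℝ) := by
        rw [Finset.sum_ite_mem, Finset.univ_inter, Finset.sum_const, nsmul_eq_mul, mul_comm]
      rw [h6]
      exact le_rfl
    -- pointwise comparison of the inner products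
    have h7 : ∑ s, ∑ c, f s c * (Qv p (S.ξ i) f s c + Qv p (S.ξ j) f s c) ≤
        ∑ s, ∑ c, f s c * (Qv p x f s c + Qv p y f s c) + 4 * (S.bad.card : ℝ) := by
      have h2 : ∀ s ∈ Finset.univ, ∑ c, f s c * (Qv p (S.ξ i) f s c + Qv p (S.ξ j) f s c) ≤
          ∑ c, f s c * (Qv p x f s c + Qv p y f s c) + (if s ∈ S.bad then 4 else 0) := by
        intro s _
        by_cases hs : s ∈ S.bad
        · rw [if_pos hs]
          simp only [mul_add]
          rw [Finset.sum_add_distrib, Finset.sum_add_distrib]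
          have e1 := abs_le.1 (Qv_bd p hf x s).2
          have e2 := abs_le.1 (Qv_bd p hf y s).2
          have e3 := abs_le.1 (Qv_bd p hf (S.ξ i) s).2
          have e4 := abs_le.1 (Qv_bd p hf (S.ξ j) s).2
          linarith [e1.1, e2.1, e3.2, e4.2]
        · rw [if_neg hs, add_zero]
          refine le_of_eq (Finset.sum_congr rfl fun c _ => ?_)
          rw [(hag s hs c).1, (hag s hs c).2]
      refine (Finset.sum_le_sum h2).trans ?_
      rw [Finset.sum_add_distrib]
      have h6 : ∑ s, (if s ∈ S.bad then (4 : ℝ) else 0) = 4 * (S.bad.card : ℝ) := by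
        rw [Finset.sum_ite_mem, Finset.univ_inter, Finset.sum_const, nsmul_eq_mul, mul_comm]
      rw [h6]
    have h8 : ∑ s, ∑ c, f s c * (Qv p (S.ξ i) f s c + Qv p (S.ξ j) f s c) =
        nsq (Qv p (S.ξ i) f) + nsq (Qv p (S.ξ j) f) := by
      rw [← ip_Qv p (S.ξ i) (S.ξ_pow i) f, ← ip_Qv p (S.ξ j) (S.ξ_pow j) f]
      unfold ip
      rw [← Finset.sum_add_distrib]
      refine Finset.sum_congr rfl fun s _ => ?_
      rw [← Finset.sum_add_distrib]
      exact Finset.sum_congr rfl fun c _ => by ring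
    rw [h8] at h7
    have h9 : (1 - ε) * (nsq (Qv p (S.ξ i) f) + nsq (Qv p (S.ξ j) f)) ≤
        (1 - ε) * (∑ s, ∑ c, f s c * (Qv p x f s c + Qv p y f s c) + 4 * (S.bad.card : ℝ)) :=
      mul_le_mul_of_nonneg_left h7 (by linarith)
    have h10 : (1 - ε) * (4 * (S.bad.card : ℝ)) ≤ 4 * (S.bad.card : ℝ) := by
      have : 0 ≤ ε * (4 * (S.bad.card : ℝ)) := by positivity
      linarith
    rw [mul_add] at h9
    linarith
  -- sum over all pairs
  have hall : ∀ i j : Fin n,
      (1 - ε) * (nsq (Qv p (S.ξ i) f) + nsq (Qv p (S.ξ j) f)) - 12 * (S.bad.card : ℝ) +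
        (if i = j then (2 + 2 * ε) * nsq (Qv p (S.ξ i) f) else 0) ≤
        nsq (fun s c => Qv p (S.ξ i) f s c + Qv p (S.ξ j) f s c) := by
    intro i j
    by_cases hij : i = j
    · subst hij
      rw [if_pos rfl]
      have h1 : nsq (fun s c => Qv p (S.ξ i) f s c + Qv p (S.ξ i) f s c) =
          4 * nsq (Qv p (S.ξ i) f) := by
        unfold nsq
        rw [Finset.mul_sum]
        refine Finset.sum_congr rfl fun s _ => ?_
        rw [Finset.mul_sum]
        exact Finset.sum_congr rfl fun c _ => by ring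
      rw [h1]
      nlinarith
    · rw [if_neg hij, add_zero]
      exact hpair i j hij
  have hsum : ∑ i, ∑ j, ((1 - ε) * (nsq (Qv p (S.ξ i) f) + nsq (Qv p (S.ξ j) f)) -
      12 * (S.bad.card : ℝ) + (if i = j then (2 + 2 * ε) * nsq (Qv p (S.ξ i) f) else 0)) ≤
      ∑ i, ∑ j, nsq (fun s c => Qv p (S.ξ i) f s c + Qv p (S.ξ j) f s c) :=
    Finset.sum_le_sum fun i _ => Finset.sum_le_sum fun j _ => hall i j
  -- evaluate both sides
  set E := energy p S.ξ f with hE
  have hEdef : E = ∑ j, nsq (Qv p (S.ξ j) f) := rfl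
  have hE0 : 0 ≤ E := by
    rw [hEdef]
    refine Finset.sum_nonneg fun j _ => ?_
    unfold nsq
    exact Finset.sum_nonneg fun s _ => Finset.sum_nonneg fun c _ => sq_nonneg _
  have hL : ∑ i : Fin n, ∑ j : Fin n, ((1 - ε) * (nsq (Qv p (S.ξ i) f) + nsq (Qv p (S.ξ j) f)) -
      12 * (S.bad.card : ℝ) + (if i = j then (2 + 2 * ε) * nsq (Qv p (S.ξ i) f) else 0)) =
      (1 - ε) * (2 * n * E) - 12 * (S.bad.card : ℝ) * n ^ 2 + (2 + 2 * ε) * E := by
    have e1 : ∀ i : Fin n, ∑ j : Fin n, ((1 - ε) * (nsq (Qv p (S.ξ i) f) + nsq (Qv p (S.ξ j) f)) -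
        12 * (S.bad.card : ℝ) + (if i = j then (2 + 2 * ε) * nsq (Qv p (S.ξ i) f) else 0)) =
        (1 - ε) * (n * nsq (Qv p (S.ξ i) f) + E) - 12 * (S.bad.card : ℝ) * n +
          (2 + 2 * ε) * nsq (Qv p (S.ξ i) f) := by
      intro i
      rw [Finset.sum_add_distrib, Finset.sum_sub_distrib, ← Finset.mul_sum,
        Finset.sum_add_distrib, Finset.sum_ite_eq, if_pos (Finset.mem_univ i), ← hEdef]
      simp only [Finset.sum_const, Finset.card_univ, Fintype.card_fin, nsmul_eq_mul]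
      ring
    rw [Finset.sum_congr rfl fun i _ => e1 i]
    have e2 : ∑ i : Fin n, (2 + 2 * ε) * nsq (Qv p (S.ξ i) f) = (2 + 2 * ε) * E := by
      rw [← Finset.mul_sum, ← hEdef]
    have e3 : ∑ i : Fin n, (1 - ε) * (n * nsq (Qv p (S.ξ i) f) + E) = (1 - ε) * (2 * n * E) := by
      rw [← Finset.mul_sum, Finset.sum_add_distrib, ← Finset.mul_sum, ← hEdef]
      simp only [Finset.sum_const, Finset.card_univ, Fintype.card_fin, nsmul_eq_mul]
      ring
    rw [Finset.sum_add_distrib, Finset.sum_sub_distrib, e2, e3]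
    simp only [Finset.sum_const, Finset.card_univ, Fintype.card_fin, nsmul_eq_mul]
    ring
  have hR : ∑ i : Fin n, ∑ j : Fin n, nsq (fun s c => Qv p (S.ξ i) f s c + Qv p (S.ξ j) f s c) =
      2 * n * E + 2 * nsq (lap p S.ξ f) := by
    have e1 : ∀ i j : Fin n, nsq (fun s c => Qv p (S.ξ i) f s c + Qv p (S.ξ j) f s c) =
        nsq (Qv p (S.ξ i) f) + nsq (Qv p (S.ξ j) f) +
          2 * ip (Qv p (S.ξ i) f) (Qv p (S.ξ j) f) := by
      intro i j
      unfold nsq ip
      rw [Finset.mul_sum, ← Finset.sum_add_distrib, ← Finset.sum_add_distrib]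
      refine Finset.sum_congr rfl fun s _ => ?_
      rw [Finset.mul_sum, ← Finset.sum_add_distrib, ← Finset.sum_add_distrib]
      exact Finset.sum_congr rfl fun c _ => by ring
    have e2 : ∑ i : Fin n, ∑ j : Fin n, ip (Qv p (S.ξ i) f) (Qv p (S.ξ j) f) =
        nsq (lap p S.ξ f) := by
      unfold ip nsq lap
      have e3 : ∀ s : A, ∀ c : I, (∑ j, Qv p (S.ξ j) f s c) ^ 2 =
          ∑ i, ∑ j, Qv p (S.ξ i) f s c * Qv p (S.ξ j) f s c := by
        intro s c
        rw [sq, Finset.sum_mul_sum]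
      simp only [e3]
      have e4 : ∀ i : Fin n, ∑ j : Fin n, ∑ s, ∑ c, Qv p (S.ξ i) f s c * Qv p (S.ξ j) f s c =
          ∑ s, ∑ c, ∑ j : Fin n, Qv p (S.ξ i) f s c * Qv p (S.ξ j) f s c := by
        intro i
        rw [Finset.sum_comm]
        exact Finset.sum_congr rfl fun s _ => Finset.sum_comm
      rw [Finset.sum_congr rfl fun i _ => e4 i, Finset.sum_comm]
      exact Finset.sum_congr rfl fun s _ => Finset.sum_comm
    simp only [e1]
    have e5 : ∀ i : Fin n, ∑ j : Fin n, (nsq (Qv p (S.ξ i) f) + nsq (Qv p (S.ξ j) f) +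
        2 * ip (Qv p (S.ξ i) f) (Qv p (S.ξ j) f)) =
        n * nsq (Qv p (S.ξ i) f) + E + 2 * ∑ j, ip (Qv p (S.ξ i) f) (Qv p (S.ξ j) f) := by
      intro i
      rw [Finset.sum_add_distrib, Finset.sum_add_distrib, ← hEdef, ← Finset.mul_sum]
      simp only [Finset.sum_const, Finset.card_univ, Fintype.card_fin, nsmul_eq_mul]
    rw [Finset.sum_congr rfl fun i _ => e5 i]
    rw [Finset.sum_add_distrib, Finset.sum_add_distrib, ← Finset.mul_sum, ← Finset.mul_sum, e2,
      ← hEdef]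
    simp only [Finset.sum_const, Finset.card_univ, Fintype.card_fin, nsmul_eq_mul]
    ring
  rw [hL, hR] at hsum
  have h11 : (n : ℝ) * ε * E ≤ (1 / 2) * E := mul_le_mul_of_nonneg_right hεn hE0
  have h12 : 0 ≤ ε * E := by positivity
  have h13 : 0 ≤ (n : ℝ) ^ 2 * (S.bad.card : ℝ) := by positivity
  nlinarith

end

end Pool.Agent.Helper50.Sof
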